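import Pool.Agent.MP_6fd87c_lc.H78.Main

/-! A finite constraint language has short pp-definitions if and only if it has few subpowers. -/

namespace Pool.Agent.Results.MP_6fd87c_lc.FewSubpowers

open Pool.Agent.MP_6fd87c_lc.H6 Pool.Agent.MP_6fd87c_lc.H78

theorem result (A : Type) [Finite A] (Γ : Lang A) : Short Γ ↔ FewSubpowers Γ :=
  short_iff A Γ

end Pool.Agent.Results.MP_6fd87c_lc.FewSubpowers
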