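import Pool.Agent.MP_6fd87c_lc.H78.Main

/-! Short pp-definitions pass to pp-interpretations. -/

namespace Pool.Agent.Results.MP_6fd87c_lc.Full

open Pool.Agent.MP_6fd87c_lc.H6 Pool.Agent.MP_6fd87c_lc.H78

theorem result (A B : Type) [Finite A] [Finite B] (Γ : Lang A) (Δ : Lang B)
    (hΓ : Short Γ) (h : Interp Γ Δ) : Short Δ :=
  short_interp A B Γ Δ h hΓ

end Pool.Agent.Results.MP_6fd87c_lc.Full
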